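import Pool.Agent.X297.LO.Stm

/-! LO_ASM: assembly of the finite example for MP_218893_pr from PROD, SID and CORE. -/

set_option autoImplicit false

namespace Pool.Agent.X331.LOA

open Pool.Agent.X297.LO

lemma cnt_le {Ω G : Type} [Fintype Ω] [AddCommGroup G] (g : Ω → G) (a b c : ℤ) (k : G) :
    cnt g a b c k ≤ (Fintype.card Ω) ^ 3 := by
  unfold cnt
  calc Nat.card {p : Ω × Ω × Ω // a • g p.1 + b • g p.2.1 + c • g p.2.2 = k}
      ≤ Nat.card (Ω × Ω × Ω) :=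
        Nat.card_le_card_of_injective Subtype.val Subtype.val_injective
    _ = (Fintype.card Ω) ^ 3 := by
        rw [Nat.card_eq_fintype_card, Fintype.card_prod, Fintype.card_prod]; ring

lemma exists_t (A : ℕ) (hA : 1 ≤ A) : ∃ t : ℕ, 2 * (A - 1) ^ t < A ^ t := by
  have hA0 : (0 : ℝ) < A := by exact_mod_cast hA
  have hlt : ((A : ℝ) - 1) / A < 1 := by
    rw [div_lt_one hA0]; linarith
  obtain ⟨t, ht⟩ := exists_pow_lt_of_lt_one (by norm_num : (0 : ℝ) < 1 / 2) hlt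
  refine ⟨t, ?_⟩
  have h1 : (((A - 1 : ℕ) : ℝ)) = (A : ℝ) - 1 := by
    rw [Nat.cast_sub hA]; simp
  have h2 : (2 : ℝ) * ((A - 1 : ℕ) : ℝ) ^ t < (A : ℝ) ^ t := by
    rw [h1]
    rw [div_pow, div_lt_div_iff₀ (pow_pos hA0 t) (by norm_num : (0 : ℝ) < 2)] at ht
    linarith
  exact_mod_cast h2

theorem t_ASM : S_ASM := by
  intro hP hS hC
  obtain ⟨Ω, iF, iN, g, x, hx⟩ := hC
  obtain ⟨A, hAdef⟩ : ∃ A, A = cnt g 1 (-1) 2 x := ⟨_, rfl⟩
  have hA : 1 ≤ A := by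
    have := hx 0
    omega
  obtain ⟨t, ht⟩ := exists_t A hA
  obtain ⟨n, hn⟩ : ∃ n, n = 6 * ((Fintype.card Ω) ^ 3) ^ t + 1 := ⟨_, rfl⟩
  have hn0 : 0 < n := by omega
  obtain ⟨h1, h2, y, h3⟩ := hS n hn0
  have hne : Nonempty (Fin n) := ⟨⟨0, hn0⟩⟩
  refine ⟨Fin t ⊕ Fin n, (Fin t → Ω) × Fin n, inferInstance, inferInstance, inferInstance,
    (fun p => Sum.elim (fun j => g (p.1 j)) ((fun i : Fin n => (Pi.single i 1 : Fin n → ℤ)) p.2)),
    Sum.elim (fun _ => x) y, ?_, ?_⟩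
  · intro k
    have e : k = Sum.elim (fun j => k (Sum.inl j)) (fun j => k (Sum.inr j)) := by
      ext j; cases j <;> rfl
    rw [e, hP t Ω (Fin n) (Fin n) g (fun i : Fin n => (Pi.single i 1 : Fin n → ℤ)),
      hP t Ω (Fin n) (Fin n) g (fun i : Fin n => (Pi.single i 1 : Fin n → ℤ))]
    have l1 : (∏ j : Fin t, cnt g 1 1 1 (k (Sum.inl j))) ≤ ((Fintype.card Ω) ^ 3) ^ t := by
      calc (∏ j : Fin t, cnt g 1 1 1 (k (Sum.inl j))) ≤ ∏ _j : Fin t, (Fintype.card Ω) ^ 3 :=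
            Finset.prod_le_prod' fun j _ => cnt_le _ _ _ _ _
        _ = _ := by simp
    have l2 := h1 (fun j => k (Sum.inr j))
    have r1 : (∏ _j : Fin t, cnt g 1 (-1) 2 x) = A ^ t := by
      rw [← hAdef]; simp
    have r2 : 1 ≤ A ^ t := Nat.one_le_pow _ _ hA
    rw [r1]
    calc (∏ j : Fin t, cnt g 1 1 1 (k (Sum.inl j))) *
          cnt (fun i : Fin n => (Pi.single i 1 : Fin n → ℤ)) 1 1 1 (fun j => k (Sum.inr j))
        ≤ ((Fintype.card Ω) ^ 3) ^ t * 6 := Nat.mul_le_mul l1 l2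
      _ < n := by omega
      _ ≤ A ^ t * cnt (fun i : Fin n => (Pi.single i 1 : Fin n → ℤ)) 1 (-1) 2 y := by
          calc n = 1 * n := (one_mul n).symm
            _ ≤ _ := Nat.mul_le_mul r2 h3
  · intro k
    have e : k = Sum.elim (fun j => k (Sum.inl j)) (fun j => k (Sum.inr j)) := by
      ext j; cases j <;> rfl
    rw [e, hP t Ω (Fin n) (Fin n) g (fun i : Fin n => (Pi.single i 1 : Fin n → ℤ)),
      hP t Ω (Fin n) (Fin n) g (fun i : Fin n => (Pi.single i 1 : Fin n → ℤ))]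
    have l1 : (∏ j : Fin t, cnt g 1 (-1) 1 (k (Sum.inl j))) ≤ (A - 1) ^ t := by
      calc (∏ j : Fin t, cnt g 1 (-1) 1 (k (Sum.inl j))) ≤ ∏ _j : Fin t, (A - 1) :=
            Finset.prod_le_prod' fun j _ => by
              have := hx (k (Sum.inl j))
              omega
        _ = _ := by simp
    have l2 := h2 (fun j => k (Sum.inr j))
    have r1 : (∏ _j : Fin t, cnt g 1 (-1) 2 x) = A ^ t := by
      rw [← hAdef]; simp
    rw [r1]
    calc (∏ j : Fin t, cnt g 1 (-1) 1 (k (Sum.inl j))) *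
          cnt (fun i : Fin n => (Pi.single i 1 : Fin n → ℤ)) 1 (-1) 1 (fun j => k (Sum.inr j))
        ≤ (A - 1) ^ t * (2 * n) := Nat.mul_le_mul l1 l2
      _ = (2 * (A - 1) ^ t) * n := by ring
      _ < A ^ t * n := Nat.mul_lt_mul_of_pos_right ht hn0
      _ ≤ A ^ t * cnt (fun i : Fin n => (Pi.single i 1 : Fin n → ℤ)) 1 (-1) 2 y :=
          Nat.mul_le_mul_left _ h3

end Pool.Agent.X331.LOA
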